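import Pool.Agent.Lib.MP_d787f3_al.FamO
import Pool.Agent.Lib.MP_d787f3_al.Defs2

namespace Pool.Agent.Results.MP_d787f3_al.SolubleDiam
open Pool.Agent.Lib.MP_d787f3_al

/-- The soluble graphs of `PSp_n(q)` (`n ≥ 4`, not `PSp_4(2)`, `PSp_4(3)`), of `PΩ_n(q)` (`n ≥ 7`, any
type) and of `PSU_n(q)` (`n ≥ 4` even, not `PSU_4(2)`) have diameter at least three. -/
theorem result {F V : Type*} [Field F] [Finite F] [AddCommGroup V] [Module F V]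
    [FiniteDimensional F V] :
    (∀ B : V →ₗ[F] V →ₗ[F] F, B.IsAlt → B.Nondegenerate → 4 ≤ Module.finrank F V →
      ¬ (Module.finrank F V = 4 ∧ Nat.card F ≤ 3) → 3 ≤ pdiam (isom B)) ∧
    (∀ Q : QuadraticForm F V, Q.polarBilin.Nondegenerate → 7 ≤ Module.finrank F V →
      3 ≤ pdiam (omegaGrp Q)) ∧
    (∀ (σ : F →+* F) (B : V →ₛₗ[σ] V →ₗ[F] F), σ ≠ RingHom.id F → (∀ c, σ (σ c) = c) →
      B.IsSymm → B.Nondegenerate → Even (Module.finrank F V) → 4 ≤ Module.finrank F V →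
      ¬ (Module.finrank F V = 4 ∧ Nat.card F = 4) → 3 ≤ pdiam (specialIsom B)) :=
  ⟨fun B h1 h2 h3 h4 => (far_sp B h1 h2 h3 h4).ediam,
   fun Q h1 h2 => (far_o Q h1 h2).ediam,
   fun _ B h1 h2 h3 h4 h5 h6 h7 => (far_u h1 h2 B h3 h4 h5 h6 h7).ediam⟩

end Pool.Agent.Results.MP_d787f3_al.SolubleDiam
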